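import Mathlib
import Pool.Agent.K9h13.SD.Sph

/-!
# The filling area conjecture, in any genus, for fillings which are round outside of a disc in any position

Let `S` be a compact oriented Riemannian surface of ANY genus with boundary the circle of length `2π` and without
shortcuts (for instance an isometric filling of the circle). Suppose that outside of a part `S₀` the surface `S` is the
part of the unit hemisphere `H` outside of a disc `D` of the sphere of radius `ρ₀`, `cos ρ₀ ≥ 1 / √10` (71.56 degrees),
with ANY centre: `D` may be in the interior of `H`, may touch the boundary of `H`, or may be a disc about a boundary
point or even about a point outside of `H`, so that only a part of the boundary circle has a round neighbourhood.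
`S₀`, which replaces `D ∩ H`, is arbitrary. Then the area of `S` is at least `2π`.

So the area of the hemisphere cannot be decreased by changing it inside of any set of circumradius at most 71.56
degrees, with any change of the topology. The starting results RoundCollar (66.4 degrees) and
MP_aeade1_gt/RoundRegions (71.26 degrees) are about discs whose centre is the pole of `H`; here `D` has any position
and may meet the boundary of `H`, and the radius is a little larger.

Proof. Let `s`, `t` be two points of the boundary of `S₀`, corresponding to the points `x`, `y` of the boundary of
`D ∩ H`. If both are in the interior of `H`, the great circle through `x` and `y` leaves `D` at these points and joins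
two antipodal points `e`, `-e` of the boundary of `H`; as `e`, `-e` have distance `π` in `S`, and the parts of the great
circle outside of `D` are in `S`, the distance of `s` and `t` is at least the angle between `x` and `y`. The other
cases are similar. So the boundary distances of `S₀` are at least those of the closed curve `b = ∂(D ∩ H)` on the
sphere, and the area of `S₀` is at least the area enclosed by `b` (`Pool.Agent.K9h13.SD.dom_sph`, for all closed curves
in a disc of radius `ρ₀`: the calibration of the round collar theorem with the boundary functions
`arcsin ⟨b, e_θ⟩`; their extensions satisfy `|g_θ - g_θ'| ≤ 2 arcsin (sin ρ₀ |sin ((θ - θ') / 2)|)`, and the estimate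
of the comass holds up to the radius `593 / 625` (both by helper55, `Pool.Agent.K9h55.FA`)).
-/

set_option autoImplicit false

namespace Pool.Agent.Results.MP_ecf18f_gt.RoundOutsideDisc

open Real Pool.Agent.H115R3.Filling Pool.Agent.K9h13.SD

/-- A filling of the circle (of any genus) without shortcuts which is round outside of a disc `D` of the sphere of
radius at most `arccos (1 / √10)` has area at least `2π`. The coordinates are such that `D = {z > κ}`; the hemisphere
`{v : ⟨v, F 2⟩ ≥ 0}` has any position (`F` is any orthonormal basis). -/
theorem result {M : Type} [MetricSpace M] (S S₀ : OrientedSurface M) (κ : ℝ)
    (F : OrthonormalBasis (Fin 3) ℝ (EuclideanSpace ℝ (Fin 3))) (hκ : 1 / √10 ≤ κ)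
    (hc : RoundOutside S S₀ κ F) (hS : S.NoShortcut) : 2 * π ≤ S.area :=
  area_ge_round hκ hc hS

end Pool.Agent.Results.MP_ecf18f_gt.RoundOutsideDisc
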