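import Pool.Agent.K9h57.FC.All

/-!
# Orientable fillings of the circle, of any genus, have area at least `1.973 π`

`M` is a compact oriented Riemannian surface, of any genus, whose boundary is the circle of length
`2π`; boundary points are not closer in `M` than in the circle. The starting result
`MP_ecf18f_gt/AreaAnyGenus` has the bound `1.96 π`.

The method is that of the starting result. For unit vectors `θ` of the plane let `g_θ` be a
1-Lipschitz function on `M` with the boundary values `arcsin (s ⟨x, θ⟩)`, `s → 1`, and `Z = ∫ g_θ θ dθ`,
a map of `M` to the disc of radius `2/π`. For a suitable function `k` of the plane the form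
`∫ d(k(⟨Z, θ⟩, ⟨Z, Jθ⟩)) ∧ dg_θ dθ` is at most the area form (a condition on symmetric `2 × 2` matrices for
each radius `r` of `Z`), and its integral is the integral of `k` over the boundary circle.

Here `k` is given by `240 × 64` rational numbers, found by an interior point method for the
semidefinite program on this grid. Its value is about `1.9732`; the limit of the method for finer and
finer grids is about `1.975`. The condition is checked at `480` radii, each of them by one pass through
the `64` sectors of the circle with integers only (`Pool.Agent.K9h57.FA`: the general theorem;
`Pool.Agent.K9h57.FC`: data and computations).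
-/

set_option autoImplicit false

open MeasureTheory Metric Set InnerProductGeometry

namespace Pool.Agent.Results.MP_ecf18f_gt.SharperAreaBound

open Pool.Agent.H241R3.FV Pool.Agent.N526.CP

/-- Every compact oriented Riemannian surface `M`, of any genus, whose boundary is the circle of
length `2π` and in which boundary points `x`, `y` have at least the distance which they have in the
circle (the angle between the unit vectors `x` and `y`), has area at least `1.973 π`. -/
theorem result (M : Type) [MetricSpace M] [CompactSpace M] (S : OFill 2 M)
    (hS : ∀ x y : Sph 2, angle (x : E 2) (y : E 2) ≤ dist (S.bd x) (S.bd y)) :
    ENNReal.ofReal (1.973 * Real.pi) ≤ S.vol := by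
  have h := Pool.Agent.K9h57.FC.area S hS
  have h1 : (((1973 / 1000 : ℚ) : ℝ)) = 1.973 := by norm_num
  rwa [h1] at h

end Pool.Agent.Results.MP_ecf18f_gt.SharperAreaBound
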